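import Pool.Agent.J6H68.Nut.Stm

/-!
# Soundness of the certificates for cores (module CHK of helper68)
-/

set_option autoImplicit false

namespace Pool.Agent.J6H23.Nut

open Finset Pool.Agent.TH296.Nut Pool.Agent.J6H28.Nut Pool.Agent.J6H68.Nut

/-- a left inverse modulo 2 up to some columns -/
theorem linv2 {m : ℕ} {S L : List (List ℤ)} {w : Fin m → Fin m → ℤ}
    (h : ∀ j k : Fin m, (∑ i : Fin m, ent L j i * ent S i k + (if j = k then 1 else 0) + w j k) % 2 = 0)
    {v : Fin m → ZMod 2} (hv : ∀ i : Fin m, ∑ j : Fin m, (ent S i j : ZMod 2) * v j = 0) (j : Fin m) :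
    v j + ∑ k : Fin m, (w j k : ZMod 2) * v k = 0 := by
  have h1 : ∀ k : Fin m, ((∑ i : Fin m, ent L j i * ent S i k + (if j = k then 1 else 0) +
      w j k : ℤ) : ZMod 2) = 0 := fun k => cast0 _ (h j k)
  have h2 : ∑ k : Fin m, ((∑ i : Fin m, ent L j i * ent S i k + (if j = k then 1 else 0) +
      w j k : ℤ) : ZMod 2) * v k = 0 := by
    refine Finset.sum_eq_zero fun k _ => ?_
    rw [h1 k, zero_mul]
  have h3 : ∀ k : Fin m, ((∑ i : Fin m, ent L j i * ent S i k + (if j = k then 1 else 0) +
      w j k : ℤ) : ZMod 2) * v k =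
      ∑ i : Fin m, (ent L j i : ZMod 2) * ((ent S i k : ZMod 2) * v k) +
      (if j = k then v k else 0) + (w j k : ZMod 2) * v k := by
    intro k
    push_cast
    rw [add_mul, add_mul, Finset.sum_mul]
    congr 1
    congr 1
    · refine Finset.sum_congr rfl fun i _ => ?_
      ring
    · split_ifs <;> simp
  rw [Finset.sum_congr rfl fun k _ => h3 k, Finset.sum_add_distrib, Finset.sum_add_distrib,
    Finset.sum_comm] at h2
  have h4 : ∑ i : Fin m, ∑ k : Fin m, (ent L j i : ZMod 2) * ((ent S i k : ZMod 2) * v k) = 0 := by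
    refine Finset.sum_eq_zero fun i _ => ?_
    rw [← Finset.mul_sum, hv i, mul_zero]
  rw [h4, Finset.sum_ite_eq, if_pos (Finset.mem_univ _), zero_add] at h2
  exact h2

theorem two0 : (2 : ZMod 2) = 0 := by decide

theorem zero_or_one (w : ZMod 2) : w = 0 ∨ w = 1 := by
  revert w
  decide

theorem core_of {T : ℤ} {m p : ℕ} {S E L : List (List ℤ)} {a : List ℤ} {e f g h q : Fin m} {d : ℤ}
    (hc : Chk4 T m p S E L a e f g h q d) :
    Core4 T m p (Fin m) (fun i j => ent S i j) (fun i j => ent E i j) (fun i => i.val)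
      (fun i => a.getD i 0) e f g h := by
  obtain ⟨c1, c2, c3, c4, c5, c6, c7, c8, c9, c10, c11, c12, c13, c14, c15, c16, c17, c18, c19,
    c20, c21⟩ := hc
  refine ⟨Fintype.card_fin m, Fin.val_injective, fun v => v.2, c1, c2, c3, c4, c5, c6, c7, c8, c9,
    c10, c11, c12, c13, c14, ?_, c18, c19, c20, c21⟩
  intro y hy
  have hx : ∀ i : Fin m, ((a.getD i 0 : ℤ) : ℝ) ≠ 0 := fun i => by exact_mod_cast c13 i
  have hd : (d : ℝ) ≠ 0 := by exact_mod_cast c17
  refine ⟨y q / ((a.getD q 0 : ℤ) : ℝ), ?_⟩
  intro j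
  by_cases hjq : j = q
  · subst hjq
    rw [div_mul_cancel₀ _ (hx j)]
  · have h1 : ∑ i : Fin m, (ent L j i : ℝ) * ∑ k : Fin m, (ent S i k : ℝ) * y k = 0 := by
      refine Finset.sum_eq_zero fun i _ => ?_
      rw [hy i, mul_zero]
    have h2 : ∑ i : Fin m, (ent L j i : ℝ) * ∑ k : Fin m, (ent S i k : ℝ) * y k =
        ∑ k : Fin m, ((∑ i : Fin m, ent L j i * ent S i k : ℤ) : ℝ) * y k := by
      simp only [Finset.mul_sum]
      rw [Finset.sum_comm]
      refine Finset.sum_congr rfl fun k _ => ?_
      push_cast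
      rw [Finset.sum_mul]
      refine Finset.sum_congr rfl fun i _ => ?_
      ring
    have h3 : ∑ k : Fin m, ((∑ i : Fin m, ent L j i * ent S i k : ℤ) : ℝ) * y k =
        ∑ k : Fin m, ((if k = j then (d : ℝ) * y j else 0) +
          (if k = q then ((∑ i : Fin m, ent L j i * ent S i q : ℤ) : ℝ) * y q else 0)) := by
      refine Finset.sum_congr rfl fun k _ => ?_
      by_cases hkq : k = q
      · subst hkq
        rw [if_neg (fun hh => hjq hh.symm), if_pos rfl, zero_add]
      · rw [c15 j k hkq, if_neg hkq]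
        by_cases hkj : k = j
        · subst hkj
          simp
        · rw [if_neg hkj, if_neg (fun hh => hkj hh.symm)]
          simp
    rw [h2, h3, Finset.sum_add_distrib, Finset.sum_ite_eq', Finset.sum_ite_eq',
      if_pos (Finset.mem_univ _), if_pos (Finset.mem_univ _)] at h1
    have h4 : ((∑ i : Fin m, ent L j i * ent S i q : ℤ) : ℝ) * ((a.getD q 0 : ℤ) : ℝ) =
        - ((d : ℝ) * ((a.getD j 0 : ℤ) : ℝ)) := by exact_mod_cast c16 j hjq
    have h5 := hx q
    change y j = y q / ((a.getD q 0 : ℤ) : ℝ) * ((a.getD j 0 : ℤ) : ℝ)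
    generalize ((∑ i : Fin m, ent L j i * ent S i q : ℤ) : ℝ) = g at h1 h4
    generalize ((a.getD q 0 : ℤ) : ℝ) = xq at h4 h5 ⊢
    generalize ((a.getD j 0 : ℤ) : ℝ) = xj at h4 ⊢
    have h6 : d * (y j * xq) = d * (y q * xj) := by
      linear_combination xq * h1 - y q * h4
    have h7 := mul_left_cancel₀ hd h6
    field_simp
    linarith

theorem ker1_of {m : ℕ} {S L : List (List ℤ)} {q : Fin m} (hc : ChkK1 m S L q) :
    Ker1 (fun i j : Fin m => ent S i j) := by
  intro v hv
  have key : ∀ j, v j = v q := by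
    intro j
    have h1 := linv2 (w := fun _ k => if k = q then 1 else 0) hc hv j
    have h2 : ∑ k : Fin m, (((if k = q then 1 else 0 : ℤ)) : ZMod 2) * v k = v q := by
      have : ∀ k : Fin m, (((if k = q then 1 else 0 : ℤ)) : ZMod 2) * v k = if k = q then v k else 0 := by
        intro k
        split_ifs <;> simp
      rw [Finset.sum_congr rfl fun k _ => this k, Finset.sum_ite_eq', if_pos (Finset.mem_univ _)]
    rw [h2] at h1
    linear_combination h1 - two0 * v q
  rcases zero_or_one (v q) with hq | hq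
  · left
    funext j
    rw [key j, hq]
    rfl
  · right
    funext j
    rw [key j, hq]

theorem par_of {m : ℕ} {S : List (List ℤ)} {w : List ℤ} {σ : ℤ} (hc : ChkP m S w σ) :
    Par (fun i j : Fin m => ent S i j) (σ : ZMod 2) := by
  obtain ⟨c1, c2⟩ := hc
  refine ⟨fun j => ((w.getD j 0 : ℤ) : ZMod 2), ?_, ?_⟩
  · intro i
    have := cast1 _ (c1 i)
    push_cast at this
    exact this
  · have := cast0 _ c2
    push_cast at this
    exact sub_eq_zero.1 this

theorem two_of {m p : ℕ} {S E L : List (List ℤ)} {z x u : List ℤ} {q q' A B C D : Fin m}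
    (hc : Chk2 m p S E L z x u q q' A B C D) :
    Ker2 (fun i j : Fin m => ent S i j) (fun i => ((z.getD i 0 : ℤ) : ZMod 2)) ∧
    Phi (fun i j : Fin m => ent S i j) (fun i j : Fin m => ent E i j)
      (fun i => ((z.getD i 0 : ℤ) : ZMod 2)) (fun i => u.getD i 0) ∧
    Gad m p (fun i j : Fin m => ent S i j) (fun i j : Fin m => ent E i j) (fun i => i.val)
      (fun i => ((z.getD i 0 : ℤ) : ZMod 2)) (fun i => ((x.getD i 0 : ℤ) : ZMod 2)) A B C D := by
  obtain ⟨c1, c2, c3, c4, c5, c6, c7, c8, c9, c10, c11, c12, c13, c14, c15, c16, c17⟩ := hc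
  refine ⟨⟨?_, ?_⟩, ⟨?_, ?_, ?_⟩, ⟨?_, ?_, ?_, ?_, c10, c11, c12, c13, c14, c15, c16, c17⟩⟩
  · intro v hv
    have key : ∀ j, v j = ((z.getD j 0 : ℤ) : ZMod 2) * v q + (((z.getD j 0 : ℤ) : ZMod 2) + 1) * v q' := by
      intro j
      have h1 := linv2 (w := fun j k => z.getD j 0 * (if k = q then 1 else 0) +
        (z.getD j 0 + 1) * (if k = q' then 1 else 0)) (L := L) (S := S) (by
          intro j k
          refine Eq.trans ?_ (c1 j k)
          congr 1
          ring) hv j
      have h2 : ∑ k : Fin m, ((z.getD j 0 * (if k = q then 1 else 0) +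
          (z.getD j 0 + 1) * (if k = q' then 1 else 0) : ℤ) : ZMod 2) * v k =
          ((z.getD j 0 : ℤ) : ZMod 2) * v q + (((z.getD j 0 : ℤ) : ZMod 2) + 1) * v q' := by
        have h3 : ∀ k : Fin m, ((z.getD j 0 * (if k = q then 1 else 0) +
            (z.getD j 0 + 1) * (if k = q' then 1 else 0) : ℤ) : ZMod 2) * v k =
            (if k = q then ((z.getD j 0 : ℤ) : ZMod 2) * v k else 0) +
              (if k = q' then (((z.getD j 0 : ℤ) : ZMod 2) + 1) * v k else 0) := by
          intro k
          push_cast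
          rw [add_mul]
          congr 1
          · split_ifs <;> simp
          · split_ifs <;> simp
        rw [Finset.sum_congr rfl fun k _ => h3 k, Finset.sum_add_distrib, Finset.sum_ite_eq',
          Finset.sum_ite_eq', if_pos (Finset.mem_univ _), if_pos (Finset.mem_univ _)]
      rw [h2] at h1
      linear_combination h1 - two0 * (((z.getD j 0 : ℤ) : ZMod 2) * v q +
        (((z.getD j 0 : ℤ) : ZMod 2) + 1) * v q')
    rcases zero_or_one (v q) with hq | hq
    · rcases zero_or_one (v q') with hq' | hq'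
      · left
        funext j
        rw [key j, hq, hq', mul_zero, mul_zero, add_zero]
        rfl
      · right; right; right
        funext j
        rw [key j, hq, hq', mul_zero, mul_one, zero_add]
    · rcases zero_or_one (v q') with hq' | hq'
      · right; right; left
        funext j
        rw [key j, hq, hq', mul_zero, mul_one, add_zero]
      · right; left
        funext j
        rw [key j, hq, hq', mul_one, mul_one]
        linear_combination two0 * ((z.getD j 0 : ℤ) : ZMod 2)
  · have := cast0 _ c2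
    push_cast at this
    exact this
  · intro i
    have := cast0 _ (c3 i)
    push_cast at this
    exact sub_eq_zero.1 this
  · intro i
    exact Int.dvd_of_emod_eq_zero (c4 i)
  · have h8 := c5
    change (8 : ℤ) ∣ (∑ i : Fin m, u.getD i 0 * ∑ j : Fin m, (ent S i j ^ 2 - 2 * ent E i j) * u.getD j 0) - 4
    omega
  · intro i
    have := cast0 _ (c6 i)
    push_cast at this
    push_cast
    linear_combination this - two0 * ((ind A i : ZMod 2) + ind B i + ind C i + ind D i)
  · have := cast0 _ c7
    push_cast at this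
    exact this
  · have := cast1 _ c8
    push_cast at this
    exact this
  · have := cast1 _ c9
    push_cast at this
    exact this

/-- the certificates are sound -/
theorem st_chk : Pool.Agent.J6H68.Nut.StChk :=
  ⟨fun _ _ _ _ _ _ _ _ _ _ _ _ _ h => core_of h, fun _ _ _ _ h => ker1_of h,
    fun _ _ _ _ h => par_of h, fun _ _ _ _ _ _ _ _ _ _ _ _ _ _ h => two_of h⟩

end Pool.Agent.J6H23.Nut
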